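import Pool.Agent.Helper37.RG3.Goals

set_option autoImplicit false
set_option linter.unusedSectionVars false

/-!
Gluing colourings along a tight cut.
-/

namespace Pool.Agent.Helper76.RG3

open Finset Pool.Agent.Helper37.RG3

variable {V : Type} [Fintype V] [DecidableEq V]

/-- A family with given fibre sizes. -/
theorem exists_fibers {α : Type} [Fintype α] [DecidableEq α] (m : α → ℕ) {r : ℕ}
    (hm : ∑ a, m a = r) : ∃ h : Fin r → α, ∀ a, (univ.filter fun i => h i = a).card = m a := by
  have hc : Fintype.card (Fin r) = Fintype.card (Σ a, Fin (m a)) := by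
    simp [hm]
  let e : Fin r ≃ Σ a, Fin (m a) := Fintype.equivOfCardEq hc
  refine ⟨fun i => (e i).1, fun a => ?_⟩
  have h1 : (univ.filter fun i => (e i).1 = a).card
      = Fintype.card {x : Σ a, Fin (m a) // x.1 = a} := by
    rw [← Fintype.card_subtype]
    exact Fintype.card_congr (e.subtypeEquiv fun i => Iff.rfl)
  rw [h1]
  simpa using Fintype.card_congr (Equiv.sigmaSubtype (β := fun a => Fin (m a)) a)

/-- Structure of a colouring of the contracted multigraph. -/
theorem half {U X : Finset V} {w : V → V → ℕ} {r : ℕ} {y₀ : V} (h : RG U w r)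
    (hct : ct w X = r) (hy : y₀ ∉ X) {σ : Fin r → V → V}
    (hσ : ∀ i u, σ i (σ i u) = u)
    (h1 : ∀ u v, u ≠ v → (univ.filter fun i => σ i u = v).card = cq w X y₀ u v) :
    (∀ i, σ i y₀ ∈ X) ∧ (∀ x ∈ X, (univ.filter fun i => σ i y₀ = x).card = bt w {x} Xᶜ) ∧
    (∀ u ∈ X, ∀ i, σ i u = y₀ ∨ σ i u ∈ X) ∧
    (∀ u ∈ X, ∀ v ∈ X, u ≠ v → (univ.filter fun i => σ i u = v).card = w u v) := by
  have hirr : ∀ u, cq w X y₀ u u = 0 := by
    intro u
    unfold cq
    by_cases hu : u ∈ X
    · simp [hu, h.irr]
    · simp [hu]
  have hrow : ∀ v, cq w X y₀ y₀ v = if v ∈ X then bt w {v} Xᶜ else 0 := by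
    intro v
    unfold cq
    simp [hy]
  have hsum : ∑ v, cq w X y₀ y₀ v = r := by
    rw [Finset.sum_congr rfl fun v _ => hrow v]
    rw [← Finset.sum_filter]
    rw [← hct]
    unfold ct bt
    simp
  have hall : ∀ i, σ i y₀ ≠ y₀ := by
    have h2 := col_deg h1 hirr y₀
    rw [hsum] at h2
    have h3 : (univ.filter fun i => σ i y₀ ≠ y₀) = univ := by
      apply Finset.eq_univ_of_card
      rw [h2, Fintype.card_fin]
    intro i
    have := Finset.mem_univ i
    rw [← h3] at this
    simpa using this
  have hfib : ∀ u v, u ≠ v → cq w X y₀ u v = 0 → ∀ i, σ i u ≠ v := by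
    intro u v huv h0 i hi
    have h2 := h1 u v huv
    rw [h0, Finset.card_eq_zero] at h2
    have h3 : i ∈ (univ.filter fun i => σ i u = v) := by simpa using hi
    rw [h2] at h3
    simp at h3
  refine ⟨?_, ?_, ?_, ?_⟩
  · intro i
    by_contra hc
    refine hfib y₀ (σ i y₀) (hall i).symm ?_ i rfl
    rw [hrow, if_neg hc]
  · intro x hx
    rw [h1 y₀ x (by rintro rfl; exact hy hx), hrow, if_pos hx]
  · intro u hu i
    by_contra hc
    rw [not_or] at hc
    refine hfib u (σ i u) ?_ ?_ i rfl
    · intro he
      rw [← he] at hc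
      exact hc.2 hu
    · unfold cq
      simp [hc.1, hc.2]
  · intro u hu v hv huv
    rw [h1 u v huv]
    unfold cq
    simp [hu, hv]

/-- gluing along a tight cut -/
theorem tco : TCO := by
  intro V _ _ U X w r x₀ y₀ h hXU hct hx₀ hy₀ hc1 hc2
  obtain ⟨σ, hσ, h1⟩ := hc1
  obtain ⟨τ, hτ, h2⟩ := hc2
  have hy₀U : y₀ ∈ U := (Finset.mem_sdiff.mp hy₀).1
  have hy₀X : y₀ ∉ X := (Finset.mem_sdiff.mp hy₀).2
  set Y := U \ X with hY
  have hx₀Y : x₀ ∉ Y := by rw [hY]; simp; exact fun _ => hx₀
  have hctY : ct w Y = r := by rw [hY, h.ct_compl hXU, hct]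
  obtain ⟨sA, sB, sC, sD⟩ := half h hct hy₀X hσ h1
  obtain ⟨tA, tB, tC, tD⟩ := half h hctY hx₀Y hτ h2
  have hXY : ∀ v, v ∈ X → v ∉ Y := by
    intro v hv hv'
    rw [hY, Finset.mem_sdiff] at hv'
    exact hv'.2 hv
  have bX : ∀ x, bt w {x} Xᶜ = ∑ y ∈ Y, w x y := by
    intro x
    rw [← bt_singleton_left]
    apply h.bt_right
    ext v; simp [hY]; tauto
  have bY : ∀ y, bt w {y} Yᶜ = ∑ x ∈ X, w y x := by
    intro y
    rw [← bt_singleton_left]
    apply h.bt_right
    ext v
    simp only [hY, Finset.mem_inter, Finset.mem_compl, Finset.mem_sdiff]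
    constructor
    · rintro ⟨h3, h4⟩
      refine ⟨?_, h4⟩
      by_contra h5
      exact h3 ⟨h4, h5⟩
    · rintro ⟨h3, h4⟩
      exact ⟨fun h5 => h5.2 h3, h4⟩
  -- the common family
  let m : V × V → ℕ := fun p => if p.1 ∈ X ∧ p.2 ∈ Y then w p.1 p.2 else 0
  have hm : ∑ p, m p = r := by
    rw [Fintype.sum_prod_type]
    have : ∀ x, ∑ y, m (x, y) = if x ∈ X then ∑ y ∈ Y, w x y else 0 := by
      intro x
      by_cases hx : x ∈ X
      · rw [if_pos hx, ← Finset.sum_filter_add_sum_filter_not univ (fun y => y ∈ Y)]
        have e1 : ∑ y ∈ univ.filter (fun y => ¬ y ∈ Y), m (x, y) = 0 := by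
          refine Finset.sum_eq_zero fun y hy => ?_
          have : ¬ y ∈ Y := by simpa using hy
          simp [m, this]
        rw [e1, add_zero]
        have e2 : univ.filter (fun y => y ∈ Y) = Y := by ext; simp
        rw [e2]
        refine Finset.sum_congr rfl fun y hy => ?_
        simp [m, hx, hy]
      · rw [if_neg hx]
        refine Finset.sum_eq_zero fun y _ => ?_
        simp [m, hx]
    rw [Finset.sum_congr rfl fun x _ => this x, ← Finset.sum_filter]
    have e2 : univ.filter (fun y => y ∈ X) = X := by ext; simp
    rw [e2, ← hct]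
    unfold ct bt
    refine Finset.sum_congr rfl fun x _ => ?_
    rw [← bX, bt_singleton_left]
  obtain ⟨k, hk⟩ := exists_fibers m hm
  have k1 : ∀ x, (univ.filter fun i => (k i).1 = x).card
      = (univ.filter fun i => σ i y₀ = x).card := by
    intro x
    have e : (univ.filter fun i => (k i).1 = x).card
        = ∑ y, (univ.filter fun i => k i = (x, y)).card := by
      rw [← Finset.card_biUnion]
      · congr 1
        ext i
        simp [Prod.ext_iff]
      · intro a _ b _ hab
        rw [Function.onFun, Finset.disjoint_left]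
        intro i hi hi'
        simp only [mem_filter, mem_univ, true_and] at hi hi'
        rw [hi] at hi'
        exact hab (Prod.ext_iff.mp hi').2
    rw [e, Finset.sum_congr rfl fun y _ => hk (x, y)]
    by_cases hx : x ∈ X
    · rw [sB x hx, bX]
      simp only [m, hx, true_and]
      rw [← Finset.sum_filter]
      congr 1
      ext; simp
    · have : (univ.filter fun i => σ i y₀ = x) = ∅ := by
        rw [Finset.filter_eq_empty_iff]
        intro i _ hi
        exact hx (hi ▸ sA i)
      rw [this, Finset.card_empty]
      refine Finset.sum_eq_zero fun y _ => ?_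
      simp [m, hx]
  have k2 : ∀ y, (univ.filter fun i => (k i).2 = y).card
      = (univ.filter fun i => τ i x₀ = y).card := by
    intro y
    have e : (univ.filter fun i => (k i).2 = y).card
        = ∑ x, (univ.filter fun i => k i = (x, y)).card := by
      rw [← Finset.card_biUnion]
      · congr 1
        ext i
        simp [Prod.ext_iff]
      · intro a _ b _ hab
        rw [Function.onFun, Finset.disjoint_left]
        intro i hi hi'
        simp only [mem_filter, mem_univ, true_and] at hi hi'
        rw [hi] at hi'
        exact hab (Prod.ext_iff.mp hi').1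
    rw [e, Finset.sum_congr rfl fun x _ => hk (x, y)]
    by_cases hy : y ∈ Y
    · rw [tB y hy, bY]
      simp only [m, hy, and_true]
      rw [← Finset.sum_filter]
      have e2 : univ.filter (fun y => y ∈ X) = X := by ext; simp
      rw [e2]
      exact Finset.sum_congr rfl fun x _ => h.symm x y
    · have : (univ.filter fun i => τ i x₀ = y) = ∅ := by
        rw [Finset.filter_eq_empty_iff]
        intro i _ hi
        exact hy (hi ▸ tA i)
      rw [this, Finset.card_empty]
      refine Finset.sum_eq_zero fun x _ => ?_
      simp [m, hy]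
  obtain ⟨π, hπ⟩ := perm_of_fibers (fun i => σ i y₀) (fun i => (k i).1) (fun a => (k1 a).symm)
  obtain ⟨ρ, hρ⟩ := perm_of_fibers (fun i => τ i x₀) (fun i => (k i).2) (fun a => (k2 a).symm)
  -- relabel
  obtain ⟨τ', hτ', h3, t'A, t'C, t'D⟩ : ∃ τ' : Fin r → V → V, (∀ i u, τ' i (τ' i u) = u) ∧
      (∀ i, k (π i) = (σ i y₀, τ' i x₀)) ∧ (∀ i, τ' i x₀ ∈ Y) ∧
      (∀ u ∈ Y, ∀ i, τ' i u = x₀ ∨ τ' i u ∈ Y) ∧
      (∀ u ∈ Y, ∀ v ∈ Y, u ≠ v → (univ.filter fun i => τ' i u = v).card = w u v) := by
    refine ⟨fun i => τ (ρ.symm (π i)), fun i u => hτ _ u, ?_, fun i => tA _,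
      fun u hu i => tC u hu _, ?_⟩
    · intro i
      have e1 : (k (π i)).1 = σ i y₀ := hπ i
      have e2 : (k (π i)).2 = τ (ρ.symm (π i)) x₀ := by
        have := hρ (ρ.symm (π i))
        simp only [Equiv.apply_symm_apply] at this
        exact this
      exact Prod.ext e1 e2
    · intro u hu v hv huv
      rw [← tD u hu v hv huv]
      refine Finset.card_bij' (fun i _ => ρ.symm (π i)) (fun i _ => π.symm (ρ i)) ?_ ?_ ?_ ?_
      · intro i hi
        simpa using hi
      · intro i hi
        simpa using hi
      · intro i _
        simp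
      · intro i _
        simp
  have hcnt : ∀ u ∈ X, ∀ v ∈ Y,
      (univ.filter fun i => σ i y₀ = u ∧ τ' i x₀ = v).card = w u v := by
    intro u hu v hv
    have e : (univ.filter fun i => k i = (u, v)).card = w u v := by
      rw [hk]
      simp [m, hu, hv]
    rw [← e]
    refine Finset.card_bij' (fun i _ => π i) (fun i _ => π.symm i) ?_ ?_ ?_ ?_
    · intro i hi
      simp only [mem_filter, mem_univ, true_and] at hi ⊢
      rw [h3 i, hi.1, hi.2]
    · intro i hi
      simp only [mem_filter, mem_univ, true_and] at hi ⊢
      have := h3 (π.symm i)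
      rw [Equiv.apply_symm_apply, hi] at this
      exact ⟨(Prod.ext_iff.mp this).1.symm, (Prod.ext_iff.mp this).2.symm⟩
    · intro i _
      simp
    · intro i _
      simp
  -- the colouring
  let ν : Fin r → V → V := fun i u =>
    if u ∈ X then (if σ i u = y₀ then τ' i x₀ else σ i u)
    else if u ∈ Y then (if τ' i u = x₀ then σ i y₀ else τ' i u) else u
  have νX : ∀ i u, u ∈ X → ν i u = if σ i u = y₀ then τ' i x₀ else σ i u := by
    intro i u hu
    simp only [ν, if_pos hu]
  have νY : ∀ i u, u ∈ Y → ν i u = if τ' i u = x₀ then σ i y₀ else τ' i u := by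
    intro i u hu
    have : u ∉ X := fun h' => hXY u h' hu
    simp only [ν, if_neg this, if_pos hu]
  have νO : ∀ i u, u ∉ X → u ∉ Y → ν i u = u := by
    intro i u hu hu'
    simp only [ν, if_neg hu, if_neg hu']
  have hUXY : ∀ u, u ∉ X → u ∉ Y → u ∉ U := by
    intro u hu hu' hU
    apply hu'
    rw [hY, Finset.mem_sdiff]
    exact ⟨hU, hu⟩
  refine ⟨ν, ?_, ?_⟩
  · intro i u
    by_cases hu : u ∈ X
    · rw [νX i u hu]
      by_cases hs : σ i u = y₀
      · rw [if_pos hs, νY i _ (t'A i), hτ', if_pos rfl, ← hs, hσ]
      · rw [if_neg hs]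
        have hm : σ i u ∈ X := (sC u hu i).resolve_left hs
        rw [νX i _ hm, hσ, if_neg]
        rintro rfl
        exact hy₀X hu
    · by_cases hu' : u ∈ Y
      · rw [νY i u hu']
        by_cases hs : τ' i u = x₀
        · rw [if_pos hs, νX i _ (sA i), hσ, if_pos rfl, ← hs, hτ']
        · rw [if_neg hs]
          have hm : τ' i u ∈ Y := (t'C u hu' i).resolve_left hs
          rw [νY i _ hm, hτ', if_neg]
          rintro rfl
          exact hx₀Y hu'
      · rw [νO i u hu hu', νO i u hu hu']
  · intro u v huv
    by_cases hu : u ∈ X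
    · by_cases hv : v ∈ X
      · rw [← sD u hu v hv huv]
        congr 1
        ext i
        simp only [mem_filter, mem_univ, true_and]
        rw [νX i u hu]
        by_cases hs : σ i u = y₀
        · rw [if_pos hs, hs]
          constructor
          · intro h4
            exact absurd (h4 ▸ t'A i) (hXY v hv)
          · rintro rfl
            exact absurd hv hy₀X
        · rw [if_neg hs]
      · by_cases hv' : v ∈ Y
        · rw [← hcnt u hu v hv']
          congr 1
          ext i
          simp only [mem_filter, mem_univ, true_and]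
          rw [νX i u hu]
          by_cases hs : σ i u = y₀
          · rw [if_pos hs]
            have : σ i y₀ = u := by rw [← hs, hσ]
            simp [this]
          · rw [if_neg hs]
            constructor
            · intro h4
              have := (sC u hu i).resolve_left hs
              rw [h4] at this
              exact absurd this hv
            · rintro ⟨h4, _⟩
              exfalso
              apply hs
              rw [← h4, hσ]
        · rw [h.zero_right u (hUXY v hv hv'), Finset.card_eq_zero, Finset.filter_eq_empty_iff]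
          intro i _ h4
          rw [νX i u hu] at h4
          split_ifs at h4 with hs
          · exact hv' (h4 ▸ t'A i)
          · exact hv (h4 ▸ (sC u hu i).resolve_left hs)
    · by_cases hu' : u ∈ Y
      · by_cases hv : v ∈ X
        · rw [h.symm u v, ← hcnt v hv u hu']
          congr 1
          ext i
          simp only [mem_filter, mem_univ, true_and]
          rw [νY i u hu']
          by_cases hs : τ' i u = x₀
          · rw [if_pos hs]
            have : τ' i x₀ = u := by rw [← hs, hτ']
            simp [this]
          · rw [if_neg hs]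
            constructor
            · intro h4
              have := (t'C u hu' i).resolve_left hs
              rw [h4] at this
              exact absurd this (hXY v hv)
            · rintro ⟨_, h4⟩
              exfalso
              apply hs
              rw [← h4, hτ']
        · by_cases hv' : v ∈ Y
          · rw [← t'D u hu' v hv' huv]
            congr 1
            ext i
            simp only [mem_filter, mem_univ, true_and]
            rw [νY i u hu']
            by_cases hs : τ' i u = x₀
            · rw [if_pos hs, hs]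
              constructor
              · intro h4
                exact absurd (h4 ▸ sA i) hv
              · rintro rfl
                exact absurd hv' hx₀Y
            · rw [if_neg hs]
          · rw [h.zero_right u (hUXY v hv hv'), Finset.card_eq_zero,
              Finset.filter_eq_empty_iff]
            intro i _ h4
            rw [νY i u hu'] at h4
            split_ifs at h4 with hs
            · exact hv (h4 ▸ sA i)
            · exact hv' (h4 ▸ (t'C u hu' i).resolve_left hs)
      · rw [h.zero_left (hUXY u hu hu'), Finset.card_eq_zero, Finset.filter_eq_empty_iff]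
        intro i _ h4
        rw [νO i u hu hu'] at h4
        exact huv h4

end Pool.Agent.Helper76.RG3
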